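import Mathlib
import Pool.Agent.W97.V20.Stm

set_option autoImplicit false

namespace Pool.Agent.W597.V20

open Pool.Agent.W97.V20 WeierstrassCurve WeierstrassCurve.Affine
open Pool.Agent.W97.MT (affCount)

/-- A point of order three. -/
theorem order3 {p : ℕ} [Fact p.Prime] (W : WeierstrassCurve (ZMod p)) [W.IsElliptic]
    [DecidableEq (ZMod p)]
    (ha1 : W.a₁ = 0) (ha2 : W.a₂ = -11) (ha3 : W.a₃ = 0) (ha4 : W.a₄ = -1) (ha6 : W.a₆ = 0)
    (x y m : ZMod p) (he : y ^ 2 = x ^ 3 - 11 * x ^ 2 - x) (hy : 2 * y ≠ 0)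
    (hm : 2 * y * m = 3 * x ^ 2 - 22 * x - 1) (hx : m ^ 2 + 11 - 2 * x = x) :
    ∃ P : W.toAffine.Point, addOrderOf P = 3 := by
  have hQe : W.toAffine.Equation x y := by
    rw [WeierstrassCurve.Affine.equation_iff, ha1, ha2, ha3, ha4, ha6]
    linear_combination he
  have hQn := (equation_iff_nonsingular (W := W.toAffine)).1 hQe
  have hneg : W.toAffine.negY x y = -y := by
    rw [negY, ha1, ha3]
    ring
  have hY : y ≠ W.toAffine.negY x y := by
    rw [hneg]
    intro h
    apply hy
    linear_combination h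
  have hsl : W.toAffine.slope x x y y = m := by
    rw [slope_of_Y_ne rfl hY, ha1, ha2, ha4, hneg]
    have hy' : y - -y ≠ 0 := by
      intro h
      apply hy
      linear_combination h
    rw [div_eq_iff hy']
    linear_combination -hm
  have hQQ : (Point.some _ _ hQn : W.toAffine.Point) + Point.some _ _ hQn =
      - Point.some _ _ hQn := by
    rw [Point.add_self_of_Y_ne hY, Point.neg_some]
    have e1 : W.toAffine.addX x x (W.toAffine.slope x x y y) = x := by
      rw [hsl, addX, ha1, ha2]
      linear_combination hx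
    have e2 : W.toAffine.addY x x y (W.toAffine.slope x x y y) = W.toAffine.negY x y := by
      rw [addY, e1, negAddY, e1]
      congr 1
      ring
    simp only [e1, e2]
  refine ⟨Point.some _ _ hQn, ?_⟩
  have : Fact (Nat.Prime 3) := ⟨Nat.prime_three⟩
  apply addOrderOf_eq_prime
  · rw [show (3 : ℕ) = 2 + 1 from rfl, add_nsmul, two_nsmul, one_nsmul, hQQ, neg_add_cancel]
  · exact Point.some_ne_zero _

theorem s_six : Pool.Agent.W97.V20.S_SIX := by
  classical
  intro p hp h2 h3 h5
  have : Fact p.Prime := ⟨hp⟩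
  have hne : ∀ n : ℕ, (n : ZMod p) = 0 → p ∣ n := fun n h => (ZMod.natCast_eq_zero_iff n p).1 h
  have h2' : (2 : ZMod p) ≠ 0 := by
    intro h
    have := hne 2 (by exact_mod_cast h)
    exact h2 ((Nat.prime_dvd_prime_iff_eq hp Nat.prime_two).1 this)
  have h3' : (3 : ZMod p) ≠ 0 := by
    intro h
    have := hne 3 (by exact_mod_cast h)
    exact h3 ((Nat.prime_dvd_prime_iff_eq hp Nat.prime_three).1 this)
  have h5' : (5 : ZMod p) ≠ 0 := by
    intro h
    have := hne 5 (by exact_mod_cast h)
    exact h5 ((Nat.prime_dvd_prime_iff_eq hp (by norm_num)).1 this)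
  set W : WeierstrassCurve (ZMod p) := E4.map (Int.castRingHom (ZMod p)) with hW
  have ha1 : W.a₁ = 0 := by simp [hW, E4]
  have ha2 : W.a₂ = -11 := by simp [hW, E4]
  have ha3 : W.a₃ = 0 := by simp [hW, E4]
  have ha4 : W.a₄ = -1 := by simp [hW, E4]
  have ha6 : W.a₆ = 0 := by simp [hW, E4]
  have hΔ : W.Δ ≠ 0 := by
    have : W.Δ = 2 ^ 4 * 5 ^ 3 := by
      simp only [WeierstrassCurve.Δ, WeierstrassCurve.b₂, WeierstrassCurve.b₄, WeierstrassCurve.b₆,
        WeierstrassCurve.b₈, ha1, ha2, ha3, ha4, ha6]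
      norm_num
    rw [this]
    exact mul_ne_zero (pow_ne_zero _ h2') (pow_ne_zero _ h5')
  have : W.IsElliptic := ⟨isUnit_iff_ne_zero.2 hΔ⟩
  have hcard : Nat.card (WeierstrassCurve.Affine.Point W.toAffine) = affCount E4 p + 1 := by
    rw [Nat.card_congr (pointEquiv W.toAffine)]
    unfold affCount
    exact Finite.card_option
  have : Finite (WeierstrassCurve.Affine.Point W.toAffine) := by
    have : Finite (WithZero {xy : ZMod p × ZMod p // W.toAffine.Equation xy.fst xy.snd}) :=
      inferInstanceAs (Finite (Option {xy : ZMod p × ZMod p //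
        W.toAffine.Equation xy.fst xy.snd}))
    exact Finite.of_equiv _ (pointEquiv W.toAffine).symm
  have hTe : W.toAffine.Equation 0 0 := by
    rw [WeierstrassCurve.Affine.equation_iff, ha1, ha2, ha3, ha4, ha6]; norm_num
  have hTn := (equation_iff_nonsingular (W := W.toAffine)).1 hTe
  have hT2 : addOrderOf (Point.some _ _ hTn : W.toAffine.Point) = 2 := by
    have : Fact (Nat.Prime 2) := ⟨Nat.prime_two⟩
    apply addOrderOf_eq_prime
    · rw [two_nsmul]
      apply Point.add_self_of_Y_eq
      rw [negY, ha1, ha3]; norm_num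
    · exact Point.some_ne_zero _
  have hP3 : ∃ P : W.toAffine.Point, addOrderOf P = 3 := by
    have hmod : p % 3 = 1 ∨ p % 3 = 2 := by
      have h0 : p % 3 ≠ 0 := by
        intro h
        exact h3 ((Nat.prime_dvd_prime_iff_eq Nat.prime_three hp).1 (Nat.dvd_of_mod_eq_zero h)).symm
      omega
    rcases hmod with hmod | hmod
    · -- a square root of `-3`
      obtain ⟨r, hr⟩ : ∃ r : ZMod p, r ^ 2 = -3 := by
        have : Fact (Nat.Prime 3) := ⟨Nat.prime_three⟩
        have hd : 3 ∣ Nat.card (ZMod p)ˣ := by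
          rw [Nat.card_eq_fintype_card, ZMod.card_units]
          omega
        obtain ⟨w, hw⟩ := exists_prime_orderOf_dvd_card' 3 hd
        have hw3 : (w : ZMod p) ^ 3 = 1 := by
          have := pow_orderOf_eq_one w
          rw [hw] at this
          rw [← Units.val_pow_eq_pow_val, this, Units.val_one]
        have hw1 : (w : ZMod p) - 1 ≠ 0 := by
          intro h
          have h1 : w = 1 := Units.ext (by rw [Units.val_one]; exact sub_eq_zero.1 h)
          rw [h1, orderOf_one] at hw
          norm_num at hw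
        have h4 : (w : ZMod p) ^ 2 + w + 1 = 0 := by
          apply mul_left_cancel₀ hw1
          linear_combination hw3
        exact ⟨2 * w + 1, by linear_combination 4 * h4⟩
      have hr0 : r ≠ 0 := by
        rintro rfl
        apply h3'
        linear_combination hr
      obtain ⟨t, ht⟩ : ∃ t : ZMod p, 3 * t = 1 := ⟨3⁻¹, mul_inv_cancel₀ h3'⟩
      have ht0 : t ≠ 0 := by
        rintro rfl
        simp at ht
      refine order3 W ha1 ha2 ha3 ha4 ha6 (-t) (5 * r * t ^ 2) (-2 * r) ?_ ?_ ?_ ?_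
      · linear_combination 25 * t ^ 4 * hr + (-25 * t ^ 3 - 8 * t ^ 2 + t) * ht
      · refine mul_ne_zero h2' (mul_ne_zero (mul_ne_zero h5' hr0) (pow_ne_zero _ ht0))
      · linear_combination -20 * t ^ 2 * hr + (19 * t - 1) * ht
      · linear_combination 4 * hr + ht
    · -- a cube root of `2`
      obtain ⟨c, hc⟩ : ∃ c : ZMod p, c ^ 3 = 2 := by
        obtain ⟨k, hk⟩ : ∃ k, p = 3 * k + 2 := ⟨p / 3, by omega⟩
        have hf : (2 : ZMod p) ^ (3 * k + 1) = 1 := by
          have := ZMod.pow_card_sub_one_eq_one h2'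
          rwa [show p - 1 = 3 * k + 1 by omega] at this
        refine ⟨2 ^ (2 * k + 1), ?_⟩
        rw [← pow_mul]
        rw [show (2 * k + 1) * 3 = (3 * k + 1) * 2 + 1 by ring, pow_succ, pow_mul, hf]
        ring
      refine order3 W ha1 ha2 ha3 ha4 ha6 (3 * c ^ 2 + 4 * c + 5) (-(6 * c ^ 2 + 8 * c + 9))
        (-(3 * c + 2)) ?_ ?_ ?_ ?_
      · linear_combination (-27 * c ^ 3 - 108 * c ^ 2 - 144 * c - 64 - 54 + 9 * 11 * c - 135 * c + 36 * c) * hc
      · have h9 : (6 * c ^ 2 + 8 * c + 9) * (2 * c ^ 2 - 3) = 5 := by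
          linear_combination (12 * c + 16) * hc
        apply mul_ne_zero h2'
        rw [neg_ne_zero]
        intro h
        rw [h, zero_mul] at h9
        exact h5' h9.symm
      · linear_combination (-36 - 27 * c) * hc
      · ring
  rw [← hcard]
  have d2 : 2 ∣ Nat.card (WeierstrassCurve.Affine.Point W.toAffine) := by
    rw [← hT2]; exact addOrderOf_dvd_natCard _
  have d3 : 3 ∣ Nat.card (WeierstrassCurve.Affine.Point W.toAffine) := by
    obtain ⟨P, hP⟩ := hP3
    rw [← hP]; exact addOrderOf_dvd_natCard _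
  omega

end Pool.Agent.W597.V20
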